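import Pool.Agent.Q33.QPhi.Period

/-! Truncated `q`-sums with `(q^2;q^4)_k^3` modulo `Φ_n(q)^2` for `n ≡ 3 (mod 4)`. -/

namespace Pool.Agent.Results.MP_846daf_nt.CubedTruncated

open Finset Polynomial Pool.Agent.Q33.QPhi

/-- the `q`-shifted factorial `(a;x)_k = ∏_{j<k} (1 - a x^j)` in `ℚ(q)` -/
noncomputable def qf (a x : RatFunc ℚ) (k : ℕ) : RatFunc ℚ := ∏ j ∈ range k, (1 - a * x ^ j)

/-- `t_k(q) = q^k (1+q^(4k+1)) (q^2;q^4)_k^3 / ((1+q) (q^4;q^4)_k^3)` -/
noncomputable def t (k : ℕ) : RatFunc ℚ :=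
  RatFunc.X ^ k * ((1 + RatFunc.X ^ (4 * k + 1)) * qf (RatFunc.X ^ 2) (RatFunc.X ^ 4) k ^ 3 /
    ((1 + RatFunc.X) * qf (RatFunc.X ^ 4) (RatFunc.X ^ 4) k ^ 3))

/-- `S_N(q) = ∑_{k=0}^{N} t_k(q)` -/
noncomputable def S (N : ℕ) : RatFunc ℚ := ∑ k ∈ range (N + 1), t k

/-- the inclusion `ℤ[q] → ℚ(q)` -/
noncomputable def incl : ℤ[X] →+* RatFunc ℚ :=
  (algebraMap ℚ[X] (RatFunc ℚ)).comp (Polynomial.mapRingHom (Int.castRingHom ℚ))

/-- `f ≡ 0 (mod Φ_n(q)^2)`: the denominator of `f` in lowest terms is coprime to `Φ_n`, and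
`Φ_n(q)^2` divides `A` in `ℤ[q]` whenever `f = A/B` with `A, B ∈ ℤ[q]`, `B ≠ 0` -/
def ZeroMod (n : ℕ) (f : RatFunc ℚ) : Prop :=
  IsCoprime f.denom (cyclotomic n ℚ) ∧
    ∀ A B : ℤ[X], B ≠ 0 → f = incl A / incl B → cyclotomic n ℤ ^ 2 ∣ A

section
variable {R : Type*} [CommRing R]

theorem natDegree_prod_range (f : ℕ → R[X]) (N d : ℕ) (h : ∀ l, (f l).natDegree ≤ d) :
    (∏ l ∈ range N, f l).natDegree ≤ N * d := by
  refine (natDegree_prod_le _ _).trans ?_
  calc ∑ l ∈ range N, (f l).natDegree ≤ ∑ l ∈ range N, d := sum_le_sum fun l _ => h l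
    _ = N * d := by simp

/-- the polynomial of the block theorem -/
theorem exists_T (D : Data R) (h4 : D.n % 4 = 3) :
    ∃ T : R[X], (∀ j, D.n ∣ j → T.coeff j ≠ 0 → j = 3 * D.n) ∧
      ∀ z, T.eval z = (X * (1 + C D.q * X ^ 4) : R[X]).eval z * D.p 1 z ^ 0 * D.p 2 z ^ 3 := by
  set g : R[X] := (1 + C D.q * X) * (∏ l ∈ range D.N, (1 - C (D.q ^ (2 * 2 * (l + 1))) * X)) ^ 3 with hg
  refine ⟨X * expand R 4 g, ?_, ?_⟩
  · have hdeg : g.natDegree ≤ 1 + 3 * D.N := by
      have h1 : (∏ l ∈ range D.N, (1 - C (D.q ^ (2 * 2 * (l + 1))) * X)).natDegree ≤ D.N * 1 := by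
        apply natDegree_prod_range
        intro l
        refine (natDegree_sub_le _ _).trans ?_
        rw [natDegree_one]
        exact max_le (Nat.zero_le _) ((natDegree_C_mul_le _ _).trans natDegree_X_le)
      have h2 : (1 + C D.q * X : R[X]).natDegree ≤ 1 := by
        refine (natDegree_add_le _ _).trans ?_
        rw [natDegree_one]
        exact max_le (Nat.zero_le _) ((natDegree_C_mul_le _ _).trans natDegree_X_le)
      rw [hg]
      refine natDegree_mul_le.trans ?_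
      have h3 := natDegree_pow_le (p := ∏ l ∈ range D.N, (1 - C (D.q ^ (2 * 2 * (l + 1))) * X)) (n := 3)
      omega
    intro j hj hc
    rcases j with _ | j
    · rw [mul_comm, coeff_mul_X_zero] at hc
      exact absurd rfl hc
    · rw [mul_comm, coeff_mul_X, coeff_expand (by norm_num : 0 < 4)] at hc
      split_ifs at hc with h3
      · have h4' := le_natDegree_of_ne_zero hc
        obtain ⟨i, hi⟩ := h3
        have h5 : j / 4 = i := by omega
        rw [h5] at h4'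
        have hn := D.hn
        obtain ⟨m, hm⟩ := hj
        have h6 : m < 6 := by
          by_contra h7
          have h8 : D.n * 6 ≤ D.n * m := Nat.mul_le_mul_left _ (by omega)
          omega
        interval_cases m <;> omega
      · exact absurd rfl hc
  · intro z
    have h2 : ∏ l ∈ range D.N, eval (z ^ 4) (1 - C (D.q ^ (2 * 2 * (l + 1))) * X) = D.p 2 z := by
      unfold Data.p
      refine prod_congr rfl fun l _ => ?_
      rw [eval_sub, eval_one, eval_mul, eval_C, eval_X]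
    rw [← h2, ← eval_prod, eval_mul, expand_eval, hg, eval_mul, eval_pow (n := 3), eval_mul, eval_add,
      eval_add, eval_mul, eval_mul, eval_C, eval_C, eval_pow, eval_X, eval_X, eval_one, eval_one, pow_zero,
      mul_one]
    ring

theorem abstract_main (D : Data R) (h4 : D.n % 4 = 3) {A : ℕ → R} (hA : D.IsA 2 A) (hA1 : ∃ A₁, D.IsA 1 A₁ ∧ A₁ 0 = 1)
    (h0 : A 0 = 1)
    (hper : ∑ k ∈ range D.n, D.q ^ k * (1 + D.q ^ (4 * k + 1)) * A k ^ 3 = 0) (r : ℕ) :
    ∑ k ∈ range (r * D.n), D.q ^ k * (1 + D.q ^ (4 * k + 1)) * A k ^ 3 = 0 ∧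
    ∑ k ∈ range (r * D.n + D.N + 1), D.q ^ k * (1 + D.q ^ (4 * k + 1)) * A k ^ 3 = 0 := by
  obtain ⟨T, hT1, hT2⟩ := exists_T D h4
  obtain ⟨A₁, hA1, h10⟩ := hA1
  have hW : ∀ k, (X * (1 + C D.q * X ^ 4) : R[X]).eval (D.q ^ k) * A₁ k ^ 0 * A k ^ 3
      = D.q ^ k * (1 + D.q ^ (4 * k + 1)) * A k ^ 3 := by
    intro k
    rw [eval_mul, eval_add, eval_mul, eval_C, eval_pow, eval_X, eval_one, pow_zero, mul_one, ← pow_mul,
      pow_succ, mul_comm k 4]
    ring
  have hblock := D.block (α := 0) (β := 3) (X * (1 + C D.q * X ^ 4)) T (3 * D.n) hT1 hT2 hA1 hA h10 h0 (by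
    rw [← hper]
    exact sum_congr rfl fun k _ => hW k)
  have hhalf := D.block_half (α := 0) (β := 3) (by norm_num) (X * (1 + C D.q * X ^ 4)) hA1 hA hblock
  constructor
  · rw [← hblock r]
    exact sum_congr rfl fun k _ => (hW k).symm
  · rw [← hhalf r]
    exact sum_congr rfl fun k _ => (hW k).symm

/-- evaluation of one period from the terminating sum -/
theorem period_of (D : Data R) {A : ℕ → R} (hA : D.IsA 2 A) (h0 : A 0 = 1) (qi : R) (hqi : D.q * qi = 1)
    (iv : ℕ → R) (hiv : ∀ k, k ≤ D.N → iv k * (poch (D.q ^ 4) (D.q ^ 4) k *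
      (poch (D.q ^ 4 * qi ^ (2 * D.n)) (D.q ^ 4) k * poch (D.q ^ 4 * D.q ^ (2 * D.n)) (D.q ^ 4) k)) = 1)
    (hs : ∑ k ∈ range (D.N + 1), D.q ^ k * (1 + D.q ^ (4 * k + 1)) *
      (poch (D.q ^ 2) (D.q ^ 4) k * (poch (D.q ^ 2 * D.q ^ (2 * D.n)) (D.q ^ 4) k *
        poch (D.q ^ 2 * qi ^ (2 * D.n)) (D.q ^ 4) k)) * iv k = 0) :
    ∑ k ∈ range D.n, D.q ^ k * (1 + D.q ^ (4 * k + 1)) * A k ^ 3 = 0 := by
  have hn := D.hn
  have hodd : D.n.Coprime 2 := by
    rw [D.hn]
    simp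
  have hs2 : D.n.Coprime (2 * 2) := Nat.Coprime.mul_right hodd hodd
  have hsplit : ∑ k ∈ range D.n, D.q ^ k * (1 + D.q ^ (4 * k + 1)) * A k ^ 3
      = ∑ k ∈ range (D.N + 1), D.q ^ k * (1 + D.q ^ (4 * k + 1)) * A k ^ 3 := by
    rw [show D.n = (D.N + 1) + D.N by omega, sum_range_add, add_eq_left]
    apply sum_eq_zero
    intro k hk
    rw [mem_range] at hk
    obtain ⟨w, hw⟩ := D.A_half hs2 hA 0 (k := D.N + 1 + k) (by omega) (by omega)
    rw [zero_mul, zero_add] at hw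
    rw [hw]
    linear_combination (D.q ^ (D.N + 1 + k) * (1 + D.q ^ (4 * (D.N + 1 + k) + 1)) * w ^ 3 * D.e) * D.he
  rw [hsplit, ← hs]
  refine sum_congr rfl fun k hk => ?_
  rw [mem_range] at hk
  -- `u = q^{2n}`
  have hu : D.q ^ (2 * D.n) = 1 + 2 * D.e := by
    rw [mul_comm, pow_mul, D.hq]
    linear_combination D.he
  have hui : qi ^ (2 * D.n) = 1 - 2 * D.e := by
    have h1 : D.q ^ (2 * D.n) * qi ^ (2 * D.n) = 1 := by rw [← mul_pow, hqi, one_pow]
    rw [hu] at h1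
    linear_combination (1 - 2 * D.e) * h1 + 4 * qi ^ (2 * D.n) * D.he
  have hprod : ∀ w, poch (w * D.q ^ (2 * D.n)) (D.q ^ 4) k * poch (w * qi ^ (2 * D.n)) (D.q ^ 4) k
      = poch w (D.q ^ 4) k ^ 2 := by
    intro w
    rw [hu, hui]
    unfold poch
    rw [← prod_mul_distrib, ← prod_pow]
    refine prod_congr rfl fun l _ => ?_
    linear_combination (-4 * (w * (D.q ^ 4) ^ l) ^ 2) * D.he
  have hApoch : ∀ k, A k * poch (D.q ^ 4) (D.q ^ 4) k = poch (D.q ^ 2) (D.q ^ 4) k := by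
    intro k
    induction k with
    | zero => simp [poch, h0]
    | succ k ih =>
      have h1 := hA k
      rw [show 2 * 2 * (k + 1) = 4 + 4 * k by ring, show 2 * (2 * k + 1) = 2 + 4 * k by ring, pow_add,
        pow_add, pow_mul] at h1
      rw [poch_succ, poch_succ]
      linear_combination poch (D.q ^ 4) (D.q ^ 4) k * h1 + (1 - D.q ^ 2 * (D.q ^ 4) ^ k) * ih
  have h1 := hiv k (by omega)
  rw [mul_comm (poch (D.q ^ 4 * qi ^ (2 * D.n)) (D.q ^ 4) k), hprod] at h1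
  rw [hprod, ← hApoch k]
  linear_combination (-(D.q ^ k * (1 + D.q ^ (4 * k + 1)) * A k ^ 3)) * h1

theorem period_map {R T : Type*} [CommRing R] [CommRing T] (f : R →+* T) (D : Data T) (q qi : R)
    (hq : D.q = f q) {A : ℕ → T} (hA : D.IsA 2 A) (h0 : A 0 = 1) (hqi : q * qi = 1)
    (iv : ℕ → R) (hiv : ∀ k, k ≤ D.N → iv k * (poch (q ^ 4) (q ^ 4) k *
      (poch (q ^ 4 * qi ^ (2 * D.n)) (q ^ 4) k * poch (q ^ 4 * q ^ (2 * D.n)) (q ^ 4) k)) = 1)
    (hs : f (∑ k ∈ range (D.N + 1), q ^ k * (1 + q ^ (4 * k + 1)) *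
      (poch (q ^ 2) (q ^ 4) k * (poch (q ^ 2 * q ^ (2 * D.n)) (q ^ 4) k *
        poch (q ^ 2 * qi ^ (2 * D.n)) (q ^ 4) k)) * iv k) = 0) :
    ∑ k ∈ range D.n, D.q ^ k * (1 + D.q ^ (4 * k + 1)) * A k ^ 3 = 0 := by
  apply period_of D hA h0 (f qi) (by rw [hq, ← map_mul, hqi, map_one]) (fun k => f (iv k))
  · intro k hk
    have h := congrArg f (hiv k hk)
    simp only [map_mul, map_poch, map_pow, map_one] at h
    rw [hq]
    exact h
  · rw [← hs, map_sum, hq]
    refine sum_congr rfl fun k _ => ?_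
    simp only [map_mul, map_poch, map_pow, map_one, map_add]

end

/-- **MP_846daf**, Q1: for every positive integer `n ≡ 3 (mod 4)` and `r ≥ 1`, both
`S_{rn-1}(q)` and `S_{rn+(n-1)/2}(q)` are `≡ 0` modulo `Φ_n(q)^2`. -/
theorem result (n r : ℕ) (hn : n % 4 = 3) (hr : 1 ≤ r) :
    ZeroMod n (S (r * n - 1)) ∧ ZeroMod n (S (r * n + (n - 1) / 2)) := by
  have : NeZero n := ⟨by omega⟩
  obtain ⟨N, hN⟩ : ∃ N, n = 2 * N + 1 := ⟨n / 2, by omega⟩
  have hodd : Odd n := Nat.odd_iff.2 (by omega)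
  have hA1 := isA_AO n hodd (s := 1) one_pos N hN
  have hA2 := isA_AO n hodd (s := 2) two_pos N hN
  have h10 : mkB n (AO n 1 0) = 1 := by rw [AO_zero, map_one]
  have h20 : mkB n (AO n 2 0) = 1 := by rw [AO_zero, map_one]
  obtain ⟨qi, hqi⟩ := (unit_q n (by omega)).exists_right_inv
  have hpq : ∀ j : ℕ, qO n ^ j * qi ^ j = 1 := by
    intro j
    rw [← mul_pow, hqi, one_pow]
  have h4 : n.Coprime 4 := by
    have h7 : n.Coprime 2 := by
      rw [hN]
      simp
    exact Nat.Coprime.mul_right h7 h7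
  -- units
  have hunit : ∀ k, k ≤ N → IsUnit (poch (qO n ^ 4) (qO n ^ 4) k *
      (poch (qO n ^ 4 * qi ^ (2 * n)) (qO n ^ 4) k * poch (qO n ^ 4 * qO n ^ (2 * n)) (qO n ^ 4) k)) := by
    intro k hk
    unfold poch
    refine IsUnit.mul ?_ (IsUnit.mul ?_ ?_)
    · apply Finset.prod_induction _ IsUnit (fun _ _ => IsUnit.mul) isUnit_one
      intro l hl
      rw [mem_range] at hl
      rw [← pow_succ', ← pow_mul]
      apply unit_sub
      intro h3
      have := Nat.le_of_dvd (by omega) (h4.dvd_of_dvd_mul_left h3)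
      omega
    · apply Finset.prod_induction _ IsUnit (fun _ _ => IsUnit.mul) isUnit_one
      intro l hl
      rw [mem_range] at hl
      have h1 : qO n ^ 4 * qi ^ (2 * n) * (qO n ^ 4) ^ l * qO n ^ (2 * n - 4 * (l + 1)) = 1 := by
        have e1 : qO n ^ 4 * (qO n ^ 4) ^ l * qO n ^ (2 * n - 4 * (l + 1)) = qO n ^ (2 * n) := by
          rw [← pow_mul, ← pow_add, ← pow_add]
          congr 1
          omega
        linear_combination qi ^ (2 * n) * e1 + hpq (2 * n)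
      have h2 : 1 - qO n ^ 4 * qi ^ (2 * n) * (qO n ^ 4) ^ l
          = -(qO n ^ 4 * qi ^ (2 * n) * (qO n ^ 4) ^ l) * (1 - qO n ^ (2 * n - 4 * (l + 1))) := by
        linear_combination -h1
      rw [h2]
      refine (IsUnit.of_mul_eq_one _ h1).neg.mul (unit_sub n _ ?_)
      intro h3
      have h5 : n ∣ 4 * (l + 1) := by
        have h5 : 4 * (l + 1) = 2 * n - (2 * n - 4 * (l + 1)) := by omega
        rw [h5]
        exact Nat.dvd_sub (dvd_mul_left n 2) h3
      have := Nat.le_of_dvd (by omega) (h4.dvd_of_dvd_mul_left h5)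
      omega
    · apply Finset.prod_induction _ IsUnit (fun _ _ => IsUnit.mul) isUnit_one
      intro l hl
      rw [mem_range] at hl
      have e1 : qO n ^ 4 * qO n ^ (2 * n) * (qO n ^ 4) ^ l = qO n ^ (4 * (l + 1) + 2 * n) := by
        rw [← pow_mul, ← pow_add, ← pow_add]
        congr 1
        ring
      rw [e1]
      apply unit_sub
      intro h3
      have h5 : n ∣ 4 * (l + 1) := (Nat.dvd_add_left (dvd_mul_left n 2)).1 h3
      have := Nat.le_of_dvd (by omega) (h4.dvd_of_dvd_mul_left h5)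
      omega
  have hper0 := period_O n hn hN qi hqi (fun k => Ring.inverse (poch (qO n ^ 4) (qO n ^ 4) k *
      (poch (qO n ^ 4 * qi ^ (2 * n)) (qO n ^ 4) k * poch (qO n ^ 4 * qO n ^ (2 * n)) (qO n ^ 4) k)))
      (fun k hk => Ring.inverse_mul_cancel _ (hunit k hk))
  rw [← mkB_eq_zero] at hper0
  have hper := period_map (mkB n) (data n N hN) (qO n) qi rfl hA2 h20 hqi _
    (fun k hk => Ring.inverse_mul_cancel _ (hunit k hk)) hper0
  obtain ⟨m1, m2⟩ := abstract_main (data n N hN) hn hA2 ⟨_, hA1, h10⟩ h20 hper r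
  -- the elements of the local ring
  have hq1 : IsUnit (1 + qO n) := by
    have h := unit_add n hodd 1
    rwa [pow_one] at h
  obtain ⟨j, hj⟩ := hq1.exists_right_inv
  have hpsi : ∀ k, psi n (j * (qO n ^ k * (1 + qO n ^ (4 * k + 1)) * AO n 2 k ^ 3)) = t k := by
    intro k
    have hj1 := congrArg (psi n) hj
    rw [map_mul, map_add, map_one, psi_qO] at hj1
    have hj2 : psi n j = (1 + RatFunc.X)⁻¹ := eq_inv_of_mul_eq_one_right hj1
    rw [map_mul, map_mul, map_mul, map_pow, map_pow, map_add, map_one, map_pow, psi_qO,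
      psi_AO n hodd two_pos, hj2]
    simp only [t, qf, poch, Nat.reduceMul]
    rw [div_pow, div_eq_mul_inv, div_eq_mul_inv, mul_inv]
    ring
  have hfin : ∀ K, (∑ k ∈ range K, mkB n (qO n) ^ k * (1 + mkB n (qO n) ^ (4 * k + 1)) * (mkB n (AO n 2 k)) ^ 3
      = 0) → ZeroMod n (∑ k ∈ range K, t k) := by
    intro K hK
    have h1 : mkB n (∑ k ∈ range K, j * (qO n ^ k * (1 + qO n ^ (4 * k + 1)) * AO n 2 k ^ 3)) = 0 := by
      rw [← mul_sum, map_mul]
      have h2 : mkB n (∑ k ∈ range K, qO n ^ k * (1 + qO n ^ (4 * k + 1)) * AO n 2 k ^ 3) = 0 := by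
        rw [← hK, map_sum]
        refine sum_congr rfl fun k _ => ?_
        rw [map_mul, map_mul, map_pow, map_pow, map_add, map_one, map_pow]
      rw [h2, mul_zero]
    rw [mkB_eq_zero] at h1
    have h2 := conclude n _ h1
    rw [map_sum, sum_congr rfl (fun k _ => hpsi k)] at h2
    exact h2
  constructor
  · have h1 := hfin (r * n) m1
    have h2 : S (r * n - 1) = ∑ k ∈ range (r * n), t k := by
      unfold S
      have : 1 ≤ r * n := Nat.mul_pos hr (NeZero.pos n)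
      rw [show r * n - 1 + 1 = r * n by omega]
    rw [h2]
    exact h1
  · have h1 := hfin (r * n + N + 1) m2
    have h2 : S (r * n + (n - 1) / 2) = ∑ k ∈ range (r * n + N + 1), t k := by
      unfold S
      rw [show (n - 1) / 2 = N by omega]
    rw [h2]
    exact h1

end Pool.Agent.Results.MP_846daf_nt.CubedTruncated
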